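import Mathlib

/-!
# Embeddings of `ℓ_p(Γ)` into `c₀(Δ)`
-/

set_option autoImplicit false
open Cardinal

namespace Pool.Agent.Y323.LP

/-- the real space `ℓ_p(Γ)` -/
def EllP (p : ENNReal) (Γ : Type) : Type := lp (fun _ : Γ => ℝ) p

/-- the space `c₀(Δ)`: the bounded real functions on `Δ` tending to `0` along the cofinite filter -/
def C0 (Δ : Type) : Type :=
  {f : lp (fun _ : Δ => ℝ) ⊤ // Filter.Tendsto (fun γ : Δ => f γ) Filter.cofinite (nhds 0)}

/-- the norm of `ℓ_p(Γ)` -/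
noncomputable def normP {p : ENNReal} {Γ : Type} (x : EllP p Γ) : ℝ :=
  norm (show lp (fun _ : Γ => ℝ) p from x)

/-- the distance `‖x - y‖_p` of `ℓ_p(Γ)` -/
noncomputable def distP {p : ENNReal} {Γ : Type} (x y : EllP p Γ) : ℝ :=
  norm ((show lp (fun _ : Γ => ℝ) p from x) - (show lp (fun _ : Γ => ℝ) p from y))

/-- the distance `‖f - g‖_∞` of `c₀(Δ)` -/
noncomputable def distC {Δ : Type} (f g : C0 Δ) : ℝ := norm (f.1 - g.1)

/-- There is a bi-Lipschitz map of `ℓ_p(Γ)` into `c₀(Δ)`. -/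
def LipEmb (p : ENNReal) (Γ Δ : Type) : Prop :=
  ∃ F : EllP p Γ → C0 Δ, ∃ a b : ℝ, 0 < a ∧ a ≤ b ∧
    ∀ x y, a * distP x y ≤ distC (F x) (F y) ∧ distC (F x) (F y) ≤ b * distP x y

/-- There is a map of `ℓ_p(Γ)` into `c₀(Δ)` whose restriction to the closed unit ball is a uniform
embedding (a uniform homeomorphism onto the image). -/
def BallUnifEmb (p : ENNReal) (Γ Δ : Type) : Prop :=
  ∃ F : EllP p Γ → C0 Δ,
    (∀ ε > 0, ∃ δ > 0, ∀ x y, normP x ≤ 1 → normP y ≤ 1 → distP x y < δ →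
      distC (F x) (F y) < ε) ∧
    (∀ ε > 0, ∃ δ > 0, ∀ x y, normP x ≤ 1 → normP y ≤ 1 → distC (F x) (F y) < δ →
      distP x y < ε)

/-- There is a coarse embedding of `ℓ_p(Γ)` into `c₀(Δ)`: for each of the two distances, it is
bounded on the pairs of points for which the other one is bounded. -/
def CoarseEmb (p : ENNReal) (Γ Δ : Type) : Prop :=
  ∃ F : EllP p Γ → C0 Δ,
    (∀ R : ℝ, ∃ S : ℝ, ∀ x y, distP x y ≤ R → distC (F x) (F y) ≤ S) ∧
    (∀ R : ℝ, ∃ S : ℝ, ∀ x y, distC (F x) (F y) ≤ R → distP x y ≤ S)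

end Pool.Agent.Y323.LP
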