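import Mathlib

/-!
# From a colouring to a bi-Lipschitz embedding (from the starting file `Threshold`)
-/

set_option autoImplicit false
open Cardinal

namespace Pool.Agent.Y323.LP

/-! ### from a colouring to a bi-Lipschitz embedding -/

section Embed

variable {X Z : Type} [NormedAddCommGroup X] [NormedSpace ℝ X]

/-- cells at scale `2 ^ k` away from the origin -/
def cell (c : X → Z) (i : ℤ × Z) : Set X :=
  {z | c ((2 : ℝ) ^ (-i.1) • z) = i.2 ∧ (2 : ℝ) ^ i.1 / 4 ≤ ‖z‖}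

open Classical in
/-- the coordinate functions -/
noncomputable def ff (c : X → Z) (δ : ℝ) (x : X) (i : ℤ × Z) : ℝ :=
  if (cell c i).Nonempty then max (δ * 2 ^ i.1 - Metric.infDist x (cell c i)) 0 else 0

lemma ff_nonneg (c : X → Z) (δ : ℝ) (x : X) (i : ℤ × Z) : 0 ≤ ff c δ x i := by
  unfold ff
  split_ifs
  · exact le_max_right _ _
  · exact le_rfl

lemma ff_lip (c : X → Z) (δ : ℝ) (x y : X) (i : ℤ × Z) :
    |ff c δ x i - ff c δ y i| ≤ dist x y := by
  unfold ff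
  split_ifs
  · refine (abs_max_sub_max_le_abs _ _ _).trans ?_
    have h1 := (Metric.lipschitz_infDist_pt (cell c i)).dist_le_mul x y
    rw [Real.dist_eq, NNReal.coe_one, one_mul] at h1
    have e1 : δ * 2 ^ i.1 - Metric.infDist x (cell c i) - (δ * 2 ^ i.1 -
        Metric.infDist y (cell c i)) = -(Metric.infDist x (cell c i) -
        Metric.infDist y (cell c i)) := by ring
    rw [e1, abs_neg]
    exact h1
  · simp

lemma ff_pos (c : X → Z) {δ : ℝ} {x : X} {i : ℤ × Z} (h : 0 < ff c δ x i) :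
    ∃ z ∈ cell c i, dist x z < δ * 2 ^ i.1 := by
  unfold ff at h
  split_ifs at h with hne
  · rw [lt_max_iff] at h
    rcases h with h | h
    · exact (Metric.infDist_lt_iff hne).1 (by linarith)
    · exact absurd h (lt_irrefl _)
  · exact absurd h (lt_irrefl _)

lemma ff_le (c : X → Z) {δ : ℝ} (hδ : 0 ≤ δ) (x : X) (i : ℤ × Z) : ff c δ x i ≤ δ * 2 ^ i.1 := by
  unfold ff
  split_ifs
  · apply max_le
    · have := Metric.infDist_nonneg (x := x) (s := cell c i)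
      linarith
    · positivity
  · positivity

lemma ff_zero (c : X → Z) {δ : ℝ} (hδ : δ ≤ 1 / 8) (i : ℤ × Z) : ff c δ 0 i = 0 := by
  rcases (ff_nonneg c δ 0 i).lt_or_eq with h | h
  · exfalso
    obtain ⟨z, hz, hz2⟩ := ff_pos c h
    have h1 := hz.2
    rw [dist_zero_left] at hz2
    have h2 : (0 : ℝ) < 2 ^ i.1 := by positivity
    nlinarith
  · exact h.symm

lemma ff_self (c : X → Z) {δ : ℝ} (hδ : 0 ≤ δ) (x : X) (i : ℤ × Z) (hx : x ∈ cell c i) :
    ff c δ x i = δ * 2 ^ i.1 := by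
  unfold ff
  rw [if_pos ⟨x, hx⟩, Metric.infDist_zero_of_mem hx, sub_zero, max_eq_left (by positivity)]

lemma zpow_inj_scale (k : ℤ) : (2 : ℝ) ^ (-k) * 2 ^ k = 1 := by
  rw [← zpow_add₀ (by norm_num : (2 : ℝ) ≠ 0)]
  simp

lemma ff_finite (c : X → Z) {δ : ℝ} (hδ : 0 < δ) (hδ8 : δ ≤ 1 / 8)
    (hfin : ∀ y, (c '' {x | dist x y < δ}).Finite) (x : X) {ε : ℝ} (hε : 0 < ε) :
    {i | ε ≤ ff c δ x i}.Finite := by
  -- bound on the scale
  have hK : ∃ K : ℕ, ∀ i : ℤ × Z, ε ≤ ff c δ x i → -(K : ℤ) ≤ i.1 ∧ i.1 ≤ K := by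
    obtain ⟨K1, hK1⟩ := pow_unbounded_of_one_lt (δ / ε) (by norm_num : (1 : ℝ) < 2)
    obtain ⟨K2, hK2⟩ := pow_unbounded_of_one_lt (8 * ‖x‖) (by norm_num : (1 : ℝ) < 2)
    refine ⟨max K1 K2, fun i hi => ⟨?_, ?_⟩⟩
    · by_contra hcon
      push Not at hcon
      have h1 := hi.trans (ff_le c hδ.le x i)
      have h2 : (2 : ℝ) ^ i.1 ≤ 2 ^ (-(K1 : ℤ)) := by
        apply zpow_le_zpow_right₀ (by norm_num)
        have : (K1 : ℤ) ≤ ((max K1 K2 : ℕ) : ℤ) := by exact_mod_cast le_max_left _ _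
        omega
      rw [zpow_neg, zpow_natCast] at h2
      have h3 : δ * (2 : ℝ) ^ i.1 ≤ δ * (2 ^ K1)⁻¹ := mul_le_mul_of_nonneg_left h2 hδ.le
      have h4 : ε ≤ δ * (2 ^ K1)⁻¹ := h1.trans h3
      rw [div_lt_iff₀ hε] at hK1
      have h5 : (0 : ℝ) < 2 ^ K1 := by positivity
      rw [← div_eq_mul_inv, le_div_iff₀ h5] at h4
      linarith
    · by_contra hcon
      push Not at hcon
      obtain ⟨z, hz, hz2⟩ := ff_pos c (lt_of_lt_of_le hε hi)
      have h1 : ‖z‖ ≤ ‖x‖ + dist x z := by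
        have := norm_le_norm_add_norm_sub' z x
        rwa [← dist_eq_norm, dist_comm z x] at this
      have h2 : (2 : ℝ) ^ K2 ≤ 2 ^ i.1 := by
        rw [← zpow_natCast]
        apply zpow_le_zpow_right₀ (by norm_num)
        have : (K2 : ℤ) ≤ ((max K1 K2 : ℕ) : ℤ) := by exact_mod_cast le_max_right _ _
        omega
      have h3 := hz.2
      have h4 : (0 : ℝ) < 2 ^ i.1 := by positivity
      nlinarith
  obtain ⟨K, hK⟩ := hK
  have hsub : {i | ε ≤ ff c δ x i} ⊆ ⋃ k ∈ Set.Icc (-(K : ℤ)) K,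
      (fun a => (k, a)) '' (c '' {w | dist w ((2 : ℝ) ^ (-k) • x) < δ}) := by
    intro i hi
    rw [Set.mem_iUnion₂]
    refine ⟨i.1, hK i hi, i.2, ?_, rfl⟩
    obtain ⟨z, hz, hz2⟩ := ff_pos c (lt_of_lt_of_le hε hi)
    refine ⟨(2 : ℝ) ^ (-i.1) • z, ?_, hz.1⟩
    rw [Set.mem_ofPred_eq, dist_smul₀, Real.norm_eq_abs, abs_of_pos (by positivity), dist_comm]
    calc (2 : ℝ) ^ (-i.1) * dist x z < 2 ^ (-i.1) * (δ * 2 ^ i.1) :=
          mul_lt_mul_of_pos_left hz2 (by positivity)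
      _ = δ * (2 ^ (-i.1) * 2 ^ i.1) := by ring
      _ = δ := by rw [zpow_inj_scale, mul_one]
  refine Set.Finite.subset ?_ hsub
  exact (Set.finite_Icc _ _).biUnion (fun k _ => (hfin _).image _)

lemma ff_lower (c : X → Z) {δ : ℝ} (hδ : 0 < δ) (hδ8 : δ ≤ 1 / 8)
    (hdiam : ∀ x x', c x = c x' → dist x x' ≤ 1 / 2) (x y : X) :
    ∃ i, δ / 2 * dist x y ≤ |ff c δ x i - ff c δ y i| ∨ x = y := by
  by_cases hxy : x = y
  · have hZ : Nonempty Z := ⟨c x⟩
    exact ⟨(0, hZ.some), Or.inr hxy⟩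
  have hd : 0 < dist x y := dist_pos.2 hxy
  obtain ⟨k, hk1, hk2⟩ := exists_mem_Ico_zpow hd (by norm_num : (1 : ℝ) < 2)
  have h2k : (0 : ℝ) < 2 ^ k := by positivity
  have hk3 : (2 : ℝ) ^ (k + 1) = 2 ^ k * 2 := by
    rw [zpow_add_one₀ (by norm_num)]
  rw [hk3] at hk2
  -- main claim
  have main : ∀ u w : X, dist u w = dist x y → (2 : ℝ) ^ k / 4 ≤ ‖u‖ →
      ff c δ u (k, c ((2 : ℝ) ^ (-k) • u)) = δ * 2 ^ k ∧
      ff c δ w (k, c ((2 : ℝ) ^ (-k) • u)) = 0 := by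
    intro u w huw hu
    constructor
    · exact ff_self c hδ.le u (k, c ((2 : ℝ) ^ (-k) • u)) ⟨rfl, hu⟩
    · rcases (ff_nonneg c δ w (k, c ((2 : ℝ) ^ (-k) • u))).lt_or_eq with h | h
      · exfalso
        obtain ⟨z, hz, hz2⟩ := ff_pos c h
        have h1 := hdiam _ _ hz.1
        simp only at h1 hz2
        rw [dist_smul₀, Real.norm_eq_abs, abs_of_pos (by positivity)] at h1
        have h3 : dist z u ≤ 2 ^ k / 2 := by
          have h4 : (2 : ℝ) ^ k * (2 ^ (-k) * dist z u) ≤ 2 ^ k * (1 / 2) :=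
            mul_le_mul_of_nonneg_left h1 h2k.le
          have h5 : (2 : ℝ) ^ k * (2 ^ (-k) * dist z u) = (2 ^ (-k) * 2 ^ k) * dist z u := by ring
          rw [h5, zpow_inj_scale, one_mul] at h4
          linarith
        have h6 : dist u w ≤ dist z u + dist w z := by
          rw [dist_comm z u, dist_comm w z]
          exact dist_triangle _ _ _
        rw [huw] at h6
        nlinarith
      · exact h.symm
  have hor : (2 : ℝ) ^ k / 4 ≤ ‖x‖ ∨ (2 : ℝ) ^ k / 4 ≤ ‖y‖ := by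
    by_contra hcon
    push Not at hcon
    have := dist_le_norm_add_norm x y
    linarith [hcon.1, hcon.2]
  rcases hor with h | h
  · obtain ⟨h1, h2⟩ := main x y rfl h
    refine ⟨(k, c ((2 : ℝ) ^ (-k) • x)), Or.inl ?_⟩
    rw [h1, h2, sub_zero, abs_of_pos (by positivity)]
    nlinarith
  · obtain ⟨h1, h2⟩ := main y x (dist_comm _ _) h
    refine ⟨(k, c ((2 : ℝ) ^ (-k) • y)), Or.inl ?_⟩
    rw [h1, h2, zero_sub, abs_neg, abs_of_pos (by positivity)]
    nlinarith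

/-- transfer to a target with index set `Δ` -/
theorem embed_of_colouring {Δ : Type} (c : X → Z) {δ : ℝ} (hδ : 0 < δ) (hδ8 : δ ≤ 1 / 8)
    (hdiam : ∀ x x', c x = c x' → dist x x' ≤ 1 / 2)
    (hfin : ∀ y, (c '' {x | dist x y < δ}).Finite) (ι : ℤ × Z → Δ) (hι : Function.Injective ι) :
    ∃ F : X → lp (fun _ : Δ => ℝ) ⊤,
      (∀ x, Filter.Tendsto (fun γ : Δ => (F x) γ) Filter.cofinite (nhds 0)) ∧
      ∃ K L : NNReal, LipschitzWith K F ∧ AntilipschitzWith L F := by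
  classical
  have hb : ∀ x i, |ff c δ x i| ≤ ‖x‖ := by
    intro x i
    have := ff_lip c δ x 0 i
    rwa [ff_zero c hδ8, sub_zero, dist_zero_right] at this
  let g : X → Δ → ℝ := fun x => Function.extend ι (ff c δ x) 0
  have hgι : ∀ x i, g x (ι i) = ff c δ x i := fun x i => hι.extend_apply _ _ _
  have hg0 : ∀ x γ, (¬ ∃ i, ι i = γ) → g x γ = 0 := fun x γ h =>
    Function.extend_apply' _ _ _ h
  have hgb : ∀ x γ, |g x γ| ≤ ‖x‖ := by
    intro x γ
    by_cases h : ∃ i, ι i = γ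
    · obtain ⟨i, rfl⟩ := h
      rw [hgι]; exact hb x i
    · rw [hg0 x γ h, abs_zero]; exact norm_nonneg _
  have hmem : ∀ x, Memℓp (g x) ⊤ := by
    intro x
    apply memℓp_infty
    refine ⟨‖x‖, ?_⟩
    rintro _ ⟨γ, rfl⟩
    exact hgb x γ
  refine ⟨fun x => ⟨g x, hmem x⟩, ?_, 1, ⟨2 / δ, by positivity⟩, ?_, ?_⟩
  · intro x
    rw [Metric.tendsto_nhds]
    intro ε hε
    rw [Filter.eventually_cofinite]
    refine ((ff_finite c hδ hδ8 hfin x hε).image ι).subset ?_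
    intro γ hγ
    rw [Set.mem_ofPred_eq, Real.dist_eq, sub_zero, not_lt] at hγ
    by_cases h : ∃ i, ι i = γ
    · obtain ⟨i, rfl⟩ := h
      refine ⟨i, ?_, rfl⟩
      have h2 : ε ≤ |g x (ι i)| := hγ
      rw [hgι, abs_of_nonneg (ff_nonneg _ _ _ _)] at h2
      exact h2
    · exfalso
      have h2 : ε ≤ |g x γ| := hγ
      rw [hg0 x γ h, abs_zero] at h2
      linarith
  · apply LipschitzWith.of_dist_le_mul
    intro x y
    rw [NNReal.coe_one, one_mul, dist_eq_norm]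
    apply lp.norm_le_of_forall_le dist_nonneg
    intro γ
    show |g x γ - g y γ| ≤ dist x y
    by_cases h : ∃ i, ι i = γ
    · obtain ⟨i, rfl⟩ := h
      rw [hgι, hgι]
      exact ff_lip c δ x y i
    · rw [hg0 x γ h, hg0 y γ h, sub_zero, abs_zero]
      exact dist_nonneg
  · apply AntilipschitzWith.of_le_mul_dist
    intro x y
    obtain ⟨i, hi | hi⟩ := ff_lower c hδ hδ8 hdiam x y
    · have h1 : |g x (ι i) - g y (ι i)| ≤ dist (⟨g x, hmem x⟩ : lp (fun _ : Δ => ℝ) ⊤)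
          ⟨g y, hmem y⟩ := by
        rw [dist_eq_norm]
        exact lp.norm_apply_le_norm ENNReal.top_ne_zero
          ((⟨g x, hmem x⟩ : lp (fun _ : Δ => ℝ) ⊤) - ⟨g y, hmem y⟩) (ι i)
      rw [hgι, hgι] at h1
      have h2 := hi.trans h1
      show dist x y ≤ 2 / δ * _
      calc dist x y = 2 / δ * (δ / 2 * dist x y) := by field_simp
        _ ≤ _ := mul_le_mul_of_nonneg_left h2 (by positivity)
    · rw [hi, dist_self]
      exact mul_nonneg (NNReal.coe_nonneg _) dist_nonneg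

end Embed


end Pool.Agent.Y323.LP
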