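import Pool.Agent.Y323.LP.Neg
import Pool.Agent.Y323.LP.Defs

/-!
# The equivalences
-/

set_option autoImplicit false
open Cardinal

namespace Pool.Agent.Y323.LP

variable {p : ENNReal} [Fact (1 ≤ p)] {Γ Δ : Type}

/-- the values of `F` belong to `c₀(Δ)` -/
def IntoC0 {X Δ : Type} (F : X → lp (fun _ : Δ => ℝ) ⊤) : Prop :=
  ∀ x, Filter.Tendsto (fun γ : Δ => (F x) γ) Filter.cofinite (nhds 0)

lemma exists_aleph_le {Γ : Type} [Infinite Γ] (h : #Γ < aleph Ordinal.omega0) :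
    ∃ n : ℕ, #Γ ≤ aleph (n : Ordinal) := by
  obtain ⟨o, ho⟩ := Cardinal.mem_range_aleph_iff.2 (Cardinal.aleph0_le_mk Γ)
  rw [← ho, Cardinal.aleph_lt_aleph] at h
  obtain ⟨n, rfl⟩ := Ordinal.lt_omega0.1 h
  exact ⟨n, ho.ge⟩

theorem lipEmb_of_lt [Infinite Γ] (hp : p ≠ ⊤) (h : #Γ < aleph Ordinal.omega0) :
    LipEmb p Γ Γ := by
  obtain ⟨n, hn⟩ := exists_aleph_le h
  obtain ⟨F, hF, K, L, hK, hL⟩ := pos_embedding hp n hn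
  have hK' : ∀ x y : lp (fun _ : Γ => ℝ) p, ‖F x - F y‖ ≤ K * ‖x - y‖ := fun x y => by
    rw [← dist_eq_norm, ← dist_eq_norm]
    exact hK.dist_le_mul x y
  have hL' : ∀ x y : lp (fun _ : Γ => ℝ) p, ‖x - y‖ ≤ L * ‖F x - F y‖ := fun x y => by
    rw [← dist_eq_norm, ← dist_eq_norm]
    exact hL.le_mul_dist x y
  have hL1 : (0 : ℝ) < (L : ℝ) + 1 := by positivity
  refine ⟨fun x => ⟨F x, hF x⟩, ((L : ℝ) + 1)⁻¹, K + ((L : ℝ) + 1)⁻¹, by positivity, ?_,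
    fun x y => ⟨?_, ?_⟩⟩
  · have : (0 : ℝ) ≤ K := K.coe_nonneg
    linarith
  · show ((L : ℝ) + 1)⁻¹ * distP x y ≤ ‖F x - F y‖
    have h1 : distP x y ≤ L * ‖F x - F y‖ := hL' x y
    rw [inv_mul_le_iff₀ hL1]
    have h2 : 0 ≤ ‖F x - F y‖ := norm_nonneg _
    linarith
  · show ‖F x - F y‖ ≤ (K + ((L : ℝ) + 1)⁻¹) * distP x y
    have h2 : 0 ≤ distP x y := norm_nonneg _
    have h3 : ‖F x - F y‖ ≤ K * distP x y := hK' x y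
    have h4 : 0 ≤ ((L : ℝ) + 1)⁻¹ * distP x y := by positivity
    linarith

lemma exists_large (q δ : ℝ) (hq : 0 < q) (hδ : 0 < δ) :
    ∃ n : ℕ, 0 < (n : ℝ) ^ (1 / q) ∧ ((n : ℝ) ^ (1 / q))⁻¹ * 2 < δ := by
  have hlim : Filter.Tendsto (fun n : ℕ => (n : ℝ) ^ (1 / q)) Filter.atTop Filter.atTop :=
    (tendsto_rpow_atTop (by positivity)).comp tendsto_natCast_atTop_atTop
  obtain ⟨n, hn⟩ := (hlim.eventually_gt_atTop (2 / δ)).exists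
  have hN0 : 0 < (n : ℝ) ^ (1 / q) := lt_trans (by positivity) hn
  refine ⟨n, hN0, ?_⟩
  rw [div_lt_iff₀ hδ] at hn
  rw [inv_mul_lt_iff₀ hN0]
  exact hn

theorem no_ball_map (hp : p ≠ ⊤) (h : aleph Ordinal.omega0 ≤ #Γ)
    (f : lp (fun _ : Γ => ℝ) p → lp (fun _ : Δ => ℝ) ⊤) (hf0 : IntoC0 f)
    (h1 : ∀ ε > 0, ∃ δ > 0, ∀ x y, ‖x‖ ≤ 1 → ‖y‖ ≤ 1 → dist x y < δ → dist (f x) (f y) < ε)
    (h2 : ∃ η > 0, ∀ x y, ‖x‖ ≤ 1 → ‖y‖ ≤ 1 → dist (f x) (f y) < η → dist x y < 1) : False := by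
  have h0 : 0 < p.toReal := ENNReal.toReal_pos (zero_lt_one.trans_le (Fact.out : 1 ≤ p)).ne' hp
  obtain ⟨j⟩ := mk_G_le h
  obtain ⟨η, hη, hη2⟩ := h2
  obtain ⟨ρ, hρ, hρη⟩ : ∃ ρ : ℝ, 0 < ρ ∧ 2 * ρ < η := ⟨η / 4, by positivity, by linarith⟩
  obtain ⟨δ, hδ, hδ2⟩ := h1 (ρ / 2) (by positivity)
  obtain ⟨n, hN0, hcN⟩ := exists_large p.toReal δ h0 hδ
  obtain ⟨x, hx, y, hy, h3, h4⟩ := exists_close j p hp {x | ‖x‖ ≤ 1} hρ (inv_nonneg.2 hN0.le) hcN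
    f hf0 (fun x hx y hy hxy => hδ2 x y hx hy hxy) n
    (fun a => by
      show ‖_‖ ≤ 1
      rw [norm_smul, Real.norm_eq_abs, abs_of_pos (inv_pos.2 hN0), inv_mul_le_iff₀ hN0, mul_one]
      exact norm_v_le j p hp n a)
  rw [inv_mul_cancel₀ hN0.ne'] at h4
  have h5 := hη2 x y hx hy (lt_of_le_of_lt h3 hρη)
  exact absurd h4 (not_le.2 h5)

theorem not_ballUnifEmb (hp : p ≠ ⊤) (h : aleph Ordinal.omega0 ≤ #Γ) :
    ¬ BallUnifEmb p Γ Δ := by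
  rintro ⟨F, h1, h2⟩
  refine no_ball_map (Δ := Δ) hp h (fun x => (F x).1) (fun x => (F x).2) (fun ε hε => ?_) ?_
  · obtain ⟨δ, hδ, hδ2⟩ := h1 ε hε
    refine ⟨δ, hδ, fun x y hx hy hxy => ?_⟩
    rw [dist_eq_norm] at hxy ⊢
    exact hδ2 x y hx hy hxy
  · obtain ⟨η, hη, hη2⟩ := h2 1 one_pos
    refine ⟨η, hη, fun x y hx hy hxy => ?_⟩
    rw [dist_eq_norm] at hxy ⊢
    exact hη2 x y hx hy hxy

theorem not_coarseEmb (hp : p ≠ ⊤) (h : aleph Ordinal.omega0 ≤ #Γ) : ¬ CoarseEmb p Γ Δ := by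
  have h0 : 0 < p.toReal := ENNReal.toReal_pos (zero_lt_one.trans_le (Fact.out : 1 ≤ p)).ne' hp
  rintro ⟨F, h1, h2⟩
  obtain ⟨j⟩ := mk_G_le h
  obtain ⟨S, hS⟩ := h1 3
  obtain ⟨ρ, hρ, hρS⟩ : ∃ ρ : ℝ, 0 < ρ ∧ S < ρ / 2 := ⟨2 * (|S| + 1), by positivity, by
    have := le_abs_self S
    linarith⟩
  obtain ⟨D, hD⟩ := h2 (2 * ρ)
  have hlim : Filter.Tendsto (fun n : ℕ => (n : ℝ) ^ (1 / p.toReal)) Filter.atTop Filter.atTop :=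
    (tendsto_rpow_atTop (by positivity)).comp tendsto_natCast_atTop_atTop
  obtain ⟨n, hn⟩ := (hlim.eventually_gt_atTop D).exists
  obtain ⟨x, -, y, -, h3, h4⟩ := exists_close (Δ := Δ) j p hp Set.univ hρ zero_le_one
    (show (1 : ℝ) * 2 < 3 by norm_num) (fun x => (F x).1) (fun x => (F x).2)
    (fun x _ y _ hxy => by
      rw [dist_eq_norm] at hxy ⊢
      exact lt_of_le_of_lt (hS x y hxy.le) hρS) n (fun a => Set.mem_univ _)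
  rw [dist_eq_norm] at h3 h4
  have h5 : distP x y ≤ D := hD x y h3
  have h6 : 1 * (n : ℝ) ^ (1 / p.toReal) ≤ distP x y := h4
  rw [one_mul] at h6
  linarith

theorem LipEmb.ball (h : LipEmb p Γ Δ) : BallUnifEmb p Γ Δ := by
  obtain ⟨F, a, b, ha, hab, h⟩ := h
  have hb : 0 < b := ha.trans_le hab
  refine ⟨F, fun ε hε => ⟨ε / b, by positivity, fun x y _ _ hxy => ?_⟩,
    fun ε hε => ⟨a * ε, by positivity, fun x y _ _ hxy => ?_⟩⟩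
  · rw [lt_div_iff₀ hb] at hxy
    have := (h x y).2
    linarith
  · have h1 := lt_of_le_of_lt (h x y).1 hxy
    exact lt_of_mul_lt_mul_left h1 ha.le

theorem LipEmb.coarse (h : LipEmb p Γ Δ) : CoarseEmb p Γ Δ := by
  obtain ⟨F, a, b, ha, hab, h⟩ := h
  have hb : 0 < b := ha.trans_le hab
  refine ⟨F, fun R => ⟨b * R, fun x y hxy => ?_⟩, fun R => ⟨R / a, fun x y hxy => ?_⟩⟩
  · exact (h x y).2.trans (mul_le_mul_of_nonneg_left hxy hb.le)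
  · rw [le_div_iff₀ ha]
    have := (h x y).1
    linarith

theorem tfae (hp : p ≠ ⊤) [Infinite Γ] : List.TFAE [
    #Γ < aleph Ordinal.omega0,
    LipEmb p Γ Γ,
    ∃ Δ : Type, BallUnifEmb p Γ Δ,
    ∃ Δ : Type, CoarseEmb p Γ Δ] := by
  tfae_have 1 → 2 := fun h => lipEmb_of_lt hp h
  tfae_have 2 → 3 := fun h => ⟨Γ, h.ball⟩
  tfae_have 2 → 4 := fun h => ⟨Γ, h.coarse⟩
  tfae_have 3 → 1 := by
    rintro ⟨Δ, h⟩
    by_contra hcon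
    exact not_ballUnifEmb hp (not_lt.1 hcon) h
  tfae_have 4 → 1 := by
    rintro ⟨Δ, h⟩
    by_contra hcon
    exact not_coarseEmb hp (not_lt.1 hcon) h
  tfae_finish

end Pool.Agent.Y323.LP
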