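import Mathlib

/-!
# Robust choices of finitely many coordinates (after the starting file `Threshold`, for all exponents)
-/

set_option autoImplicit false
open Cardinal

namespace Pool.Agent.Y323.LP

variable {Γ : Type} {p : ℝ}

/-- every finite part of `A` has energy at most `C` -/
def Le (p : ℝ) (x : Γ → ℝ) (A : Set Γ) (C : ℝ) : Prop :=
  ∀ S : Finset Γ, (↑S ⊆ A) → ∑ ξ ∈ S, |x ξ| ^ p ≤ C

/-- square summability -/
def SQ (p : ℝ) (x : Γ → ℝ) : Prop := ∀ η : ℝ, 0 < η → ∃ F : Finset Γ, Le p x (↑F)ᶜ η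

lemma Le.mono {x : Γ → ℝ} {A B : Set Γ} {C D : ℝ} (h : Le p x B C) (hAB : A ⊆ B) (hCD : C ≤ D) :
    Le p x A D := fun S hS => (h S (hS.trans hAB)).trans hCD

lemma rpow_abs_le (hp : 0 ≤ p) (s t : ℝ) : |s| ^ p ≤ 2 ^ p * (|t| ^ p + |s - t| ^ p) := by
  have h1 : |s| ≤ 2 * max |t| |s - t| := by
    have h2 : |s| ≤ |t| + |s - t| := by
      have := abs_add_le t (s - t)
      rwa [add_sub_cancel] at this
    have h3 := le_max_left |t| |s - t|
    have h4 := le_max_right |t| |s - t|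
    linarith
  have h5 : |s| ^ p ≤ (2 * max |t| |s - t|) ^ p := Real.rpow_le_rpow (abs_nonneg _) h1 hp
  rw [Real.mul_rpow (by norm_num) (by positivity)] at h5
  refine h5.trans (mul_le_mul_of_nonneg_left ?_ (by positivity))
  rcases max_choice |t| |s - t| with h | h
  · rw [h]
    have : 0 ≤ |s - t| ^ p := by positivity
    linarith
  · rw [h]
    have : 0 ≤ |t| ^ p := by positivity
    linarith

lemma Le.add (hp : 0 ≤ p) {x y : Γ → ℝ} {A : Set Γ} {C D : ℝ} (h1 : Le p y A C)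
    (h2 : Le p (x - y) A D) : Le p x A (2 ^ p * C + 2 ^ p * D) := by
  intro S hS
  have h3 := h1 S hS
  have h4 := h2 S hS
  have h5 : ∑ ξ ∈ S, |x ξ| ^ p ≤ ∑ ξ ∈ S, (2 ^ p * |y ξ| ^ p + 2 ^ p * |(x - y) ξ| ^ p) := by
    apply Finset.sum_le_sum
    intro ξ _
    rw [Pi.sub_apply, ← mul_add]
    exact rpow_abs_le hp _ _
  rw [Finset.sum_add_distrib, ← Finset.mul_sum, ← Finset.mul_sum] at h5
  have h6 : (0 : ℝ) ≤ 2 ^ p := by positivity
  nlinarith [mul_le_mul_of_nonneg_left h3 h6, mul_le_mul_of_nonneg_left h4 h6]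

/-- a robust choice of finitely many coordinates in `A` -/
def Good (p : ℝ) (A : Set Γ) (ε δ : ℝ) : Prop :=
  ∃ R : (Γ → ℝ) → Finset Γ, (∀ x, SQ p x → Le p x (A \ ↑(R x)) ε) ∧
    ∀ y, SQ p y → ∃ U : Finset Γ, ∀ x, SQ p x → Le p (x - y) A δ → R x ⊆ U

lemma good_countable (hp : 0 ≤ p) (A : Set Γ) (hA : A.Countable) (ε : ℝ) (hε : 0 < ε) :
    Good p A ε (ε / (2 * 2 ^ p)) := by
  classical
  obtain ⟨g, hg⟩ := Set.countable_iff_exists_injOn.1 hA
  have hfin : ∀ N, {γ ∈ A | g γ < N}.Finite := by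
    intro N
    apply Set.Finite.of_finite_image (f := g) _ (hg.mono (fun γ h => h.1))
    exact (Set.finite_lt_nat N).subset (by rintro _ ⟨γ, h, rfl⟩; exact h.2)
  have hex : ∀ x : Γ → ℝ, SQ p x → ∀ η, 0 < η → ∃ N : ℕ, Le p x {γ ∈ A | N ≤ g γ} η := by
    intro x hx η hη
    obtain ⟨F, hF⟩ := hx η hη
    refine ⟨F.sup g + 1, hF.mono ?_ le_rfl⟩
    rintro γ ⟨_, h2⟩ h3
    have : g γ ≤ F.sup g := Finset.le_sup (f := g) h3
    omega
  let R : (Γ → ℝ) → Finset Γ := fun x =>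
    if h : ∃ N : ℕ, Le p x {γ ∈ A | N ≤ g γ} ε then (hfin (Nat.find h)).toFinset else ∅
  refine ⟨R, ?_, ?_⟩
  · intro x hx
    have h := hex x hx ε hε
    have h2 := Nat.find_spec h
    refine h2.mono ?_ le_rfl
    rintro γ ⟨h3, h4⟩
    refine ⟨h3, ?_⟩
    by_contra h5
    apply h4
    simp only [R, dif_pos h]
    rw [Set.Finite.coe_toFinset]
    exact ⟨h3, by omega⟩
  · intro y hy
    obtain ⟨N, hN⟩ := hex y hy (ε / (2 * 2 ^ p)) (by positivity)
    refine ⟨(hfin N).toFinset, ?_⟩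
    intro x hx hxy
    have h := hex x hx ε hε
    have h1 : Le p x {γ ∈ A | N ≤ g γ} ε :=
      (hN.add hp (hxy.mono (fun γ h => h.1) le_rfl)).mono le_rfl (by
        have h2 : (0 : ℝ) < 2 ^ p := by positivity
        have h3 : 2 ^ p * (ε / (2 * 2 ^ p)) = ε / 2 := by field_simp
        rw [h3]; linarith)
    have h2 : Nat.find h ≤ N := Nat.find_min' h h1
    simp only [R, dif_pos h]
    intro γ hγ
    rw [Set.Finite.mem_toFinset] at hγ ⊢
    exact ⟨hγ.1, hγ.2.trans_le h2⟩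

lemma exists_R {ε : ℝ} (hε : 0 < ε) {O : Type} [LinearOrder O] (A : Set Γ) (φ : Γ → O)
    (hφ : Set.InjOn φ A) (Rt : Γ → Finset Γ) (hRt : ∀ β, β ∈ Rt β) (x : Γ → ℝ) (hx : SQ p x)
    (h : ∀ β ∈ A, Le p x ({ξ ∈ A | φ ξ < φ β} \ ↑(Rt β)) (ε / 4)) :
    ∃ Rx : Finset Γ, Le p x (A \ ↑Rx) ε ∧ (Rx = ∅ ∨ ∃ W : Finset Γ, ↑W ⊆ A ∧
      ε / 6 ≤ ∑ β ∈ W, |x β| ^ p ∧ ∀ ξ ∈ Rx, ∃ V ⊆ W, (∀ β ∈ V, ξ ∈ Rt β) ∧
        (∑ β ∈ W, |x β| ^ p) / 2 ≤ ∑ β ∈ V, |x β| ^ p) := by
  classical
  obtain ⟨F, hF⟩ := hx (ε / 6) (by positivity)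
  set F' := F.filter (· ∈ A) with hF'
  have hsplit : ∀ S : Finset Γ, ∑ ξ ∈ S, |x ξ| ^ p ≤ (∑ ξ ∈ S with ξ ∈ F, |x ξ| ^ p) + ε / 6 := by
    intro S
    rw [← Finset.sum_filter_add_sum_filter_not S (· ∈ F)]
    gcongr
    apply hF
    intro ξ hξ
    rw [Finset.coe_filter] at hξ
    exact hξ.2
  by_cases hb : ∑ ξ ∈ F', |x ξ| ^ p < ε / 6
  · refine ⟨∅, ?_, Or.inl rfl⟩
    intro S hS
    have h1 := hsplit S
    have h2 : ∑ ξ ∈ S with ξ ∈ F, |x ξ| ^ p ≤ ∑ ξ ∈ F', |x ξ| ^ p := by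
      apply Finset.sum_le_sum_of_subset_of_nonneg
      · intro ξ hξ
        rw [Finset.mem_filter] at hξ
        rw [hF', Finset.mem_filter]
        exact ⟨hξ.2, (hS hξ.1).1⟩
      · intro i _ _; positivity
    linarith
  · push Not at hb
    have hF'ne : F'.Nonempty := by
      rw [Finset.nonempty_iff_ne_empty]
      intro h0
      rw [h0, Finset.sum_empty] at hb
      linarith
    set Q := F'.filter (fun t => ε / 6 ≤ ∑ ξ ∈ F' with φ t ≤ φ ξ, |x ξ| ^ p) with hQ
    have hQne : Q.Nonempty := by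
      obtain ⟨t0, ht0, hmin⟩ := Finset.exists_min_image F' φ hF'ne
      refine ⟨t0, ?_⟩
      rw [hQ, Finset.mem_filter]
      refine ⟨ht0, ?_⟩
      rw [Finset.filter_true_of_mem hmin]
      exact hb
    obtain ⟨t, htQ, htmax⟩ := Finset.exists_max_image Q φ hQne
    rw [hQ, Finset.mem_filter] at htQ
    obtain ⟨htF', htb⟩ := htQ
    have htA : t ∈ A := (Finset.mem_filter.1 htF').2
    set W := F'.filter (fun ξ => φ t ≤ φ ξ) with hW
    set W' := F'.filter (fun ξ => φ t < φ ξ) with hW'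
    set T := ∑ β ∈ W, |x β| ^ p with hT
    have hTpos : 0 < T := lt_of_lt_of_le (by positivity) htb
    have hWA : (↑W : Set Γ) ⊆ A := by
      intro ξ hξ
      rw [Finset.mem_coe, hW, Finset.mem_filter, hF', Finset.mem_filter] at hξ
      exact hξ.1.2
    have hW'lt : ∑ ξ ∈ W', |x ξ| ^ p < ε / 6 := by
      by_contra hcon
      push Not at hcon
      have hne : W'.Nonempty := by
        rw [Finset.nonempty_iff_ne_empty]
        intro h0
        rw [h0, Finset.sum_empty] at hcon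
        linarith
      obtain ⟨s, hs, hsmin⟩ := Finset.exists_min_image W' φ hne
      have hs' := hs
      rw [hW', Finset.mem_filter] at hs'
      have heq : F'.filter (fun ξ => φ s ≤ φ ξ) = W' := by
        ext ξ
        simp only [hW', Finset.mem_filter]
        constructor
        · rintro ⟨h1, h2⟩; exact ⟨h1, hs'.2.trans_le h2⟩
        · rintro ⟨h1, h2⟩
          exact ⟨h1, hsmin ξ (by rw [hW', Finset.mem_filter]; exact ⟨h1, h2⟩)⟩
      have hsQ : s ∈ Q := by
        rw [hQ, Finset.mem_filter, heq]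
        exact ⟨hs'.1, hcon⟩
      exact absurd (htmax s hsQ) (not_le.2 hs'.2)
    have hTle : T ≤ |x t| ^ p + ∑ ξ ∈ W', |x ξ| ^ p := by
      have hsub : W ⊆ insert t W' := by
        intro ξ hξ
        rw [hW, Finset.mem_filter] at hξ
        rw [Finset.mem_insert]
        rcases hξ.2.lt_or_eq with h1 | h1
        · right; rw [hW', Finset.mem_filter]; exact ⟨hξ.1, h1⟩
        · left
          exact (hφ htA (Finset.mem_filter.1 hξ.1).2 h1).symm
      have htW' : t ∉ W' := by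
        rw [hW', Finset.mem_filter]
        exact fun h => absurd h.2 (lt_irrefl _)
      calc T ≤ ∑ ξ ∈ insert t W', |x ξ| ^ p :=
            Finset.sum_le_sum_of_subset_of_nonneg hsub (fun _ _ _ => by positivity)
        _ = _ := Finset.sum_insert htW'
    set Rx := (W.biUnion Rt).filter
      (fun ξ => T / 2 ≤ ∑ β ∈ W with (ξ ∈ Rt β), |x β| ^ p) with hRx
    have hnot : ∀ ξ, ξ ∉ Rx → ∑ β ∈ W with (ξ ∈ Rt β), |x β| ^ p < T / 2 := by
      intro ξ hξ
      by_contra hcon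
      push Not at hcon
      apply hξ
      rw [hRx, Finset.mem_filter]
      refine ⟨?_, hcon⟩
      rw [Finset.mem_biUnion]
      by_contra hno
      push Not at hno
      have : W.filter (fun β => ξ ∈ Rt β) = ∅ := by
        rw [Finset.filter_eq_empty_iff]
        intro β hβ h
        exact hno β hβ h
      rw [this, Finset.sum_empty] at hcon
      linarith
    refine ⟨Rx, ?_, Or.inr ⟨W, hWA, htb, ?_⟩⟩
    · intro S hS
      have e1 : ∑ ξ ∈ S, |x ξ| ^ p = (∑ ξ ∈ S with φ ξ < φ t, |x ξ| ^ p) +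
          ((∑ ξ ∈ S with φ ξ = φ t, |x ξ| ^ p) + (∑ ξ ∈ S with φ t < φ ξ, |x ξ| ^ p)) := by
        rw [← Finset.sum_filter_add_sum_filter_not S (fun ξ => φ ξ < φ t)]
        congr 1
        rw [← Finset.sum_filter_add_sum_filter_not (S.filter (fun ξ => ¬ φ ξ < φ t))
          (fun ξ => φ ξ = φ t), Finset.filter_filter, Finset.filter_filter]
        congr 2
        · ext ξ
          rw [Finset.mem_filter, Finset.mem_filter]
          constructor
          · rintro ⟨h1, h2, h3⟩; exact ⟨h1, h3⟩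
          · rintro ⟨h1, h2⟩; exact ⟨h1, by rw [h2]; exact lt_irrefl _, h2⟩
        · ext ξ
          rw [Finset.mem_filter, Finset.mem_filter]
          constructor
          · rintro ⟨h1, h2, h3⟩; exact ⟨h1, lt_of_le_of_ne (not_lt.1 h2) (Ne.symm h3)⟩
          · rintro ⟨h1, h2⟩; exact ⟨h1, not_lt.2 h2.le, ne_of_gt h2⟩
      -- top part
      have e3 : ∑ ξ ∈ S with φ t < φ ξ, |x ξ| ^ p ≤ ε / 6 + ε / 6 := by
        refine (hsplit _).trans ?_
        have : ∑ ξ ∈ (S.filter (fun ξ => φ t < φ ξ)) with ξ ∈ F, |x ξ| ^ p ≤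
            ∑ ξ ∈ W', |x ξ| ^ p := by
          apply Finset.sum_le_sum_of_subset_of_nonneg
          · intro ξ hξ
            rw [Finset.mem_filter, Finset.mem_filter] at hξ
            rw [hW', Finset.mem_filter, hF', Finset.mem_filter]
            exact ⟨⟨hξ.2, (hS hξ.1.1).1⟩, hξ.1.2⟩
          · intro i _ _; positivity
        linarith
      -- the point t
      have e2 : ∑ ξ ∈ S with φ ξ = φ t, |x ξ| ^ p ≤ ε / 6 := by
        by_cases htS : t ∈ S
        · have hfe : S.filter (fun ξ => φ ξ = φ t) = {t} := by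
            ext ξ
            rw [Finset.mem_filter, Finset.mem_singleton]
            constructor
            · rintro ⟨h1, h2⟩; exact hφ (hS h1).1 htA h2
            · rintro rfl; exact ⟨htS, rfl⟩
          rw [hfe, Finset.sum_singleton]
          have htR : t ∉ Rx := (hS htS).2
          have h1 := hnot t htR
          have h2 : |x t| ^ p ≤ ∑ β ∈ W with (t ∈ Rt β), |x β| ^ p := by
            apply Finset.single_le_sum (f := fun β => |x β| ^ p) (fun _ _ => by positivity)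
            rw [Finset.mem_filter]
            refine ⟨?_, hRt t⟩
            rw [hW, Finset.mem_filter]
            exact ⟨htF', le_rfl⟩
          linarith
        · have hfe : S.filter (fun ξ => φ ξ = φ t) = ∅ := by
            rw [Finset.filter_eq_empty_iff]
            intro ξ hξ h2
            apply htS
            rw [← hφ (hS hξ).1 htA h2]
            exact hξ
          rw [hfe, Finset.sum_empty]
          positivity
      -- the low part
      have e4 : ∑ ξ ∈ S with φ ξ < φ t, |x ξ| ^ p ≤ ε / 2 := by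
        obtain ⟨S1, hS1⟩ : ∃ S1, S1 = S.filter (fun ξ => φ ξ < φ t) := ⟨_, rfl⟩
        rw [← hS1]
        have h1 : ∀ ξ ∈ S1, T / 2 ≤ ∑ β ∈ W with ¬ (ξ ∈ Rt β), |x β| ^ p := by
          intro ξ hξ
          rw [hS1] at hξ
          have h2 : ξ ∉ Rx := (hS (Finset.mem_filter.1 hξ).1).2
          have h3 := hnot ξ h2
          have h4 := Finset.sum_filter_add_sum_filter_not W (fun β => ξ ∈ Rt β)
            (fun β => |x β| ^ p)
          linarith
        have h2 : (T / 2) * ∑ ξ ∈ S1, |x ξ| ^ p ≤ T * (ε / 4) := by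
          calc (T / 2) * ∑ ξ ∈ S1, |x ξ| ^ p = ∑ ξ ∈ S1, (T / 2) * |x ξ| ^ p := Finset.mul_sum _ _ _
            _ ≤ ∑ ξ ∈ S1, (∑ β ∈ W with ¬ (ξ ∈ Rt β), |x β| ^ p) * |x ξ| ^ p := by
                apply Finset.sum_le_sum
                intro ξ hξ
                exact mul_le_mul_of_nonneg_right (h1 ξ hξ) (by positivity)
            _ = ∑ ξ ∈ S1, ∑ β ∈ W, (if ¬ (ξ ∈ Rt β) then |x β| ^ p * |x ξ| ^ p else 0) := by
                apply Finset.sum_congr rfl
                intro ξ _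
                rw [Finset.sum_filter, Finset.sum_mul]
                apply Finset.sum_congr rfl
                intro β _
                split_ifs <;> simp
            _ = ∑ β ∈ W, ∑ ξ ∈ S1, (if ¬ (ξ ∈ Rt β) then |x β| ^ p * |x ξ| ^ p else 0) :=
                Finset.sum_comm
            _ = ∑ β ∈ W, |x β| ^ p * ∑ ξ ∈ S1 with ¬ (ξ ∈ Rt β), |x ξ| ^ p := by
                apply Finset.sum_congr rfl
                intro β _
                rw [Finset.sum_filter, Finset.mul_sum]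
                apply Finset.sum_congr rfl
                intro ξ _
                split_ifs <;> simp
            _ ≤ ∑ β ∈ W, |x β| ^ p * (ε / 4) := by
                apply Finset.sum_le_sum
                intro β hβ
                apply mul_le_mul_of_nonneg_left _ (by positivity)
                apply h β (hWA hβ)
                intro ξ hξ
                rw [Finset.mem_coe, Finset.mem_filter, hS1, Finset.mem_filter] at hξ
                have hβ2 : φ t ≤ φ β := by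
                  rw [hW, Finset.mem_filter] at hβ
                  exact hβ.2
                refine ⟨⟨(hS hξ.1.1).1, hξ.1.2.trans_le hβ2⟩, ?_⟩
                intro h5
                exact hξ.2 h5
            _ = T * (ε / 4) := by rw [← Finset.sum_mul]
        have h3 : T * (∑ ξ ∈ S1, |x ξ| ^ p) ≤ T * (ε / 2) := by linarith
        exact le_of_mul_le_mul_left h3 hTpos
      rw [e1]
      linarith
    · intro ξ hξ
      rw [hRx, Finset.mem_filter] at hξ
      exact ⟨W.filter (fun β => ξ ∈ Rt β), Finset.filter_subset _ _,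
        fun β hβ => (Finset.mem_filter.1 hβ).2, hξ.2⟩

lemma good_succ (hp : 0 ≤ p) {ε δ' : ℝ} (hε : 0 < ε) (hδ' : 0 < δ') {O : Type} [LinearOrder O] (A : Set Γ)
    (φ : Γ → O) (hφ : Set.InjOn φ A)
    (h : ∀ β ∈ A, Good p {ξ ∈ A | φ ξ < φ β} (ε / 4) δ') : Good p A ε (min δ' (ε / (50 * 2 ^ p))) := by
  classical
  have h' : ∀ β, ∃ R : (Γ → ℝ) → Finset Γ, β ∈ A →
      ((∀ x, SQ p x → Le p x ({ξ ∈ A | φ ξ < φ β} \ ↑(R x)) (ε / 4)) ∧
      ∀ y, SQ p y → ∃ U : Finset Γ, ∀ x, SQ p x → Le p (x - y) {ξ ∈ A | φ ξ < φ β} δ' → R x ⊆ U) := by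
    intro β
    by_cases hβ : β ∈ A
    · obtain ⟨R, h1, h2⟩ := h β hβ
      exact ⟨R, fun _ => ⟨h1, h2⟩⟩
    · exact ⟨fun _ => ∅, fun h => absurd h hβ⟩
  choose R hR using h'
  let Rt : Γ → (Γ → ℝ) → Finset Γ := fun β x => insert β (R β x)
  have hex : ∀ x : Γ → ℝ, SQ p x → ∃ Rx : Finset Γ, Le p x (A \ ↑Rx) ε ∧ (Rx = ∅ ∨ ∃ W : Finset Γ,
      ↑W ⊆ A ∧ ε / 6 ≤ ∑ β ∈ W, |x β| ^ p ∧ ∀ ξ ∈ Rx, ∃ V ⊆ W, (∀ β ∈ V, ξ ∈ Rt β x) ∧
        (∑ β ∈ W, |x β| ^ p) / 2 ≤ ∑ β ∈ V, |x β| ^ p) := by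
    intro x hx
    apply exists_R hε A φ hφ (fun β => Rt β x) (fun β => Finset.mem_insert_self _ _) x hx
    intro β hβ
    refine ((hR β hβ).1 x hx).mono ?_ le_rfl
    rintro ξ ⟨h1, h2⟩
    refine ⟨h1, fun h3 => h2 ?_⟩
    exact Finset.mem_insert_of_mem h3
  let Rf : (Γ → ℝ) → Finset Γ := fun x => if hx : SQ p x then (hex x hx).choose else ∅
  have hRf : ∀ x (hx : SQ p x), Rf x = (hex x hx).choose := fun x hx => dif_pos hx
  refine ⟨Rf, ?_, ?_⟩
  · intro x hx
    rw [hRf x hx]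
    exact (hex x hx).choose_spec.1
  · intro y hy
    obtain ⟨B0, hB0⟩ := hy (min δ' (ε / (50 * 2 ^ p))) (lt_min hδ' (by positivity))
    have hUex : ∀ β, ∃ U : Finset Γ, β ∈ A → ∀ x, SQ p x →
        Le p (x - y) {ξ ∈ A | φ ξ < φ β} δ' → R β x ⊆ U := by
      intro β
      by_cases hβ : β ∈ A
      · obtain ⟨U, hU⟩ := (hR β hβ).2 y hy
        exact ⟨U, fun _ => hU⟩
      · exact ⟨∅, fun h => absurd h hβ⟩
    choose U hU using hUex
    refine ⟨B0.biUnion (fun β => insert β (U β)), ?_⟩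
    intro x hx hxy
    rw [hRf x hx]
    obtain ⟨_, h2⟩ := (hex x hx).choose_spec
    rcases h2 with h2 | ⟨W, hWA, hWb, hW⟩
    · rw [h2]; exact Finset.empty_subset _
    · intro ξ hξ
      obtain ⟨V, hVW, hV, h3⟩ := hW ξ hξ
      have h4 : ∑ β ∈ W with β ∉ B0, |x β| ^ p ≤ ε / 25 := by
        have h5 : Le p x ((↑B0)ᶜ ∩ A) (2 ^ p * min δ' (ε / (50 * 2 ^ p)) +
            2 ^ p * min δ' (ε / (50 * 2 ^ p))) :=
          (hB0.mono Set.inter_subset_left le_rfl).add hp (hxy.mono Set.inter_subset_right le_rfl)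
        refine (h5 _ ?_).trans ?_
        · intro β hβ
          rw [Finset.mem_coe, Finset.mem_filter] at hβ
          exact ⟨hβ.2, hWA hβ.1⟩
        · have h6 := min_le_right δ' (ε / (50 * 2 ^ p))
          have h7 : (0 : ℝ) < 2 ^ p := by positivity
          have h8 := mul_le_mul_of_nonneg_left h6 h7.le
          have h9 : 2 ^ p * (ε / (50 * 2 ^ p)) = ε / 50 := by field_simp
          rw [h9] at h8
          linarith
      have h6 : ∃ β ∈ W, β ∈ B0 ∧ ξ ∈ Rt β x := by
        by_contra hno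
        push Not at hno
        have h7 : ∑ β ∈ V, |x β| ^ p ≤ ∑ β ∈ W with β ∉ B0, |x β| ^ p := by
          apply Finset.sum_le_sum_of_subset_of_nonneg
          · intro β hβ
            rw [Finset.mem_filter]
            exact ⟨hVW hβ, fun hB => hno β (hVW hβ) hB (hV β hβ)⟩
          · intro i _ _; positivity
        linarith
      obtain ⟨β, hβW, hβB, hβξ⟩ := h6
      rw [Finset.mem_biUnion]
      refine ⟨β, hβB, ?_⟩
      have hβA : β ∈ A := hWA hβW
      rw [Finset.mem_insert] at hβξ ⊢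
      rcases hβξ with h8 | h8
      · exact Or.inl h8
      · right
        exact hU β hβA x hx (hxy.mono (fun ξ h => h.1) (min_le_left _ _)) h8

theorem good_aleph (hp : 0 ≤ p) (n : ℕ) : ∀ ε : ℝ, 0 < ε → ∃ δ : ℝ, 0 < δ ∧
    ∀ (Γ : Type) (A : Set Γ), #A ≤ aleph n → Good p A ε δ := by
  classical
  induction n with
  | zero =>
    intro ε hε
    refine ⟨ε / (2 * 2 ^ p), by positivity, fun Γ A hA => good_countable hp A ?_ ε hε⟩
    rw [Nat.cast_zero, aleph_zero] at hA
    exact Cardinal.le_aleph0_iff_set_countable.1 hA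
  | succ n ih =>
    intro ε hε
    obtain ⟨δ', hδ', h⟩ := ih (ε / 4) (by positivity)
    refine ⟨min δ' (ε / (50 * 2 ^ p)), lt_min hδ' (by positivity), fun Γ A hA => ?_⟩
    have hcard : aleph ((n + 1 : ℕ) : Ordinal) = Order.succ (aleph (n : Ordinal)) := by
      rw [succ_aleph]
      congr 1
    let O := (aleph ((n + 1 : ℕ) : Ordinal)).ord.ToType
    have hO : #O = aleph ((n + 1 : ℕ) : Ordinal) := Cardinal.mk_ord_toType _
    have hle : #A ≤ #O := by rw [hO]; exact hA
    obtain ⟨f⟩ := hle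
    have hne : Nonempty O := by
      rw [← Cardinal.mk_ne_zero_iff, hO]
      exact (aleph_pos _).ne'
    let φ : Γ → O := fun γ => if hγ : γ ∈ A then f ⟨γ, hγ⟩ else hne.some
    have hφA : ∀ γ (hγ : γ ∈ A), φ γ = f ⟨γ, hγ⟩ := fun γ hγ => dif_pos hγ
    have hφ : Set.InjOn φ A := by
      intro a ha b hb hab
      rw [hφA a ha, hφA b hb] at hab
      exact congrArg Subtype.val (f.injective hab)
    apply good_succ hp hε hδ' A φ hφ
    intro β hβ
    apply h
    have h1 : #{ξ ∈ A | φ ξ < φ β} ≤ #(Set.Iio (φ β)) := by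
      refine ⟨⟨fun ξ => ⟨φ ξ.1, ξ.2.2⟩, ?_⟩⟩
      intro a b hab
      apply Subtype.ext
      exact hφ a.2.1 b.2.1 (congrArg Subtype.val hab)
    have h2 : #(Set.Iio (φ β)) < #O := mk_Iio_lt (φ β) (by simp [O])
    have h3 : #(Set.Iio (φ β)) < Order.succ (aleph (n : Ordinal)) :=
      lt_of_lt_of_eq h2 (hO.trans hcard)
    exact h1.trans (Order.lt_succ_iff.1 h3)



end Pool.Agent.Y323.LP
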