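import Pool.Agent.Y323.LP.Pos

/-!
# The negative part (after the starting file `Threshold`, for all exponents)
-/

set_option autoImplicit false
open Cardinal

namespace Pool.Agent.Y323.LP

/-- the `n`-th level -/
abbrev Lv (n : ℕ) : Type := (aleph ((n + 1 : ℕ) : Ordinal)).ord.ToType

/-- tuples -/
def T : ℕ → Type
  | 0 => PUnit
  | (n + 1) => T n × Lv n

def Dst : (n : ℕ) → T n → T n → Prop
  | 0, _, _ => True
  | (n + 1), a, b => Dst n a.1 b.1 ∧ a.2 ≠ b.2

def FL {U : Type} : (n : ℕ) → (T n → U) → Prop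
  | 0, _ => True
  | (n + 1), f => (∀ z : Lv n, FL n (fun a => f (a, z))) ∧
      (∀ a : T n, (Set.range (fun z : Lv n => f (a, z))).Finite)

lemma mk_Lv (n : ℕ) : #(Lv n) = aleph ((n + 1 : ℕ) : Ordinal) := Cardinal.mk_ord_toType _

lemma mk_T (n : ℕ) : #(T n) ≤ aleph (n : Ordinal) := by
  induction n with
  | zero =>
    have : #(T 0) = 1 := Cardinal.mk_punit
    rw [this]
    exact Cardinal.one_le_aleph0.trans (Cardinal.aleph0_le_aleph _)
  | succ n ih =>
    have h1 : #(T (n + 1)) = #(T n) * #(Lv n) := by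
      have : #(T n × Lv n) = #(T n) * #(Lv n) := by simp
      exact this
    rw [h1, mk_Lv]
    have h2 : aleph (n : Ordinal) ≤ aleph ((n + 1 : ℕ) : Ordinal) := by
      rw [Cardinal.aleph_le_aleph]
      exact_mod_cast Nat.le_succ n
    calc #(T n) * aleph ((n + 1 : ℕ) : Ordinal)
        ≤ aleph ((n + 1 : ℕ) : Ordinal) * aleph ((n + 1 : ℕ) : Ordinal) := by
          gcongr
          exact ih.trans h2
      _ = _ := Cardinal.mul_eq_self (Cardinal.aleph0_le_aleph _)

lemma pigeon (n : ℕ) (g : Lv n → T n × T n) : ∃ a, {z | g z = a}.Infinite := by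
  classical
  by_contra hcon
  push Not at hcon
  have hcon' : ∀ a, {z | g z = a}.Finite := fun a => by
    have := hcon a
    simpa using this
  have : ∀ a, ∃ h : {z | g z = a} → ℕ, Function.Injective h := by
    intro a
    have := (hcon' a).countable.to_subtype
    exact Countable.exists_injective_nat _
  choose h hh using this
  have key : ∀ a b (_ : a = b) (z w : Lv n) (hz : g z = a) (hw : g w = b),
      h a ⟨z, hz⟩ = h b ⟨w, hw⟩ → z = w := by
    intro a b hab z w hz hw h3
    subst hab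
    exact congrArg Subtype.val (hh a h3)
  have hinj : Function.Injective (fun z : Lv n => (g z, h (g z) ⟨z, rfl⟩)) := by
    intro z w hzw
    rw [Prod.mk.injEq] at hzw
    exact key _ _ hzw.1 z w rfl rfl hzw.2
  have h1 := Cardinal.mk_le_of_injective hinj
  rw [mk_Lv] at h1
  have h2 : #((T n × T n) × ℕ) ≤ aleph (n : Ordinal) := by
    have h3 : #((T n × T n) × ℕ) = #(T n) * #(T n) * ℵ₀ := by simp
    rw [h3]
    calc #(T n) * #(T n) * ℵ₀ ≤ aleph (n : Ordinal) * aleph (n : Ordinal) * aleph (n : Ordinal) := by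
          gcongr
          · exact mk_T n
          · exact mk_T n
          · exact Cardinal.aleph0_le_aleph _
      _ = _ := by
          rw [Cardinal.mul_eq_self (Cardinal.aleph0_le_aleph _),
            Cardinal.mul_eq_self (Cardinal.aleph0_le_aleph _)]
  have h4 : aleph (n : Ordinal) < aleph ((n + 1 : ℕ) : Ordinal) := by
    rw [Cardinal.aleph_lt_aleph]
    exact_mod_cast Nat.lt_succ_self n
  exact absurd (h1.trans h2) (not_le.2 h4)

theorem comb {U : Type} (n : ℕ) : ∀ f : T n → U, FL n f → ∃ a b, Dst n a b ∧ f a = f b := by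
  induction n with
  | zero => intro f _; exact ⟨PUnit.unit, PUnit.unit, trivial, rfl⟩
  | succ n ih =>
    intro f hf
    have h1 : ∀ z : Lv n, ∃ p : T n × T n, Dst n p.1 p.2 ∧ f (p.1, z) = f (p.2, z) := by
      intro z
      obtain ⟨a, b, hab, h⟩ := ih (fun a => f (a, z)) (hf.1 z)
      exact ⟨(a, b), hab, h⟩
    choose g hg using h1
    obtain ⟨⟨a, b⟩, hab⟩ := pigeon n g
    have h2 := hf.2 a
    have h3 : ∃ z ∈ {z | g z = (a, b)}, ∃ z' ∈ {z | g z = (a, b)}, z ≠ z' ∧ f (a, z) = f (a, z') := by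
      have := hab.exists_ne_map_eq_of_mapsTo (f := fun z => f (a, z))
        (t := Set.range (fun z : Lv n => f (a, z))) (fun z _ => ⟨z, rfl⟩) h2
      exact this
    obtain ⟨z, hz, z', hz', hne, hzz⟩ := h3
    have gz : g z = (a, b) := hz
    have gz' : g z' = (a, b) := hz'
    have k1 := hg z
    have k2 := hg z'
    rw [gz] at k1
    rw [gz'] at k2
    refine ⟨(a, z'), (b, z), ⟨k2.1, fun h => hne h.symm⟩, ?_⟩
    calc f (a, z') = f (a, z) := hzz.symm
      _ = f (b, z) := k1.2

/-- index set -/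
abbrev G : Type := Σ n : ℕ, Lv n

lemma mk_G_le {Γ : Type} (h : aleph Ordinal.omega0 ≤ #Γ) : #G ≤ #Γ := by
  refine le_trans ?_ h
  rw [Cardinal.mk_sigma]
  calc Cardinal.sum (fun n => #(Lv n)) ≤ Cardinal.sum (fun _ : ℕ => aleph Ordinal.omega0) := by
        apply Cardinal.sum_le_sum
        intro n
        rw [mk_Lv, Cardinal.aleph_le_aleph]
        exact (Ordinal.natCast_lt_omega0 _).le
    _ = aleph Ordinal.omega0 := by
        rw [Cardinal.sum_const]
        simp [Cardinal.aleph0_mul_eq (Cardinal.aleph0_le_aleph _)]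

section Vec

variable {Γ : Type} (j : G ↪ Γ) (p : ENNReal) [Fact (1 ≤ p)]

/-- the unit vectors -/
noncomputable def e (g : G) : lp (fun _ : Γ => ℝ) p :=
  open Classical in lp.single p (j g) (1 : ℝ)

lemma norm_e (g : G) : ‖e j p g‖ = 1 := by
  classical
  unfold e
  rw [lp.norm_single (zero_lt_one.trans_le (Fact.out : 1 ≤ p))]
  simp

lemma e_apply (g h : G) : e j p g (j h) = if h = g then 1 else 0 := by
  classical
  unfold e
  rw [lp.single_apply]
  by_cases hgh : h = g
  · subst hgh; simp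
  · have : j h ≠ j g := fun h' => hgh (j.injective h')
    simp [this, hgh]

lemma e_apply' (g : G) (i : Γ) (hi : i ≠ j g) : e j p g i = 0 := by
  classical
  unfold e
  rw [lp.single_apply]
  simp [hi]

/-- the sums of the unit vectors of a tuple -/
noncomputable def v : (n : ℕ) → T n → lp (fun _ : Γ => ℝ) p
  | 0, _ => 0
  | (n + 1), a => v n a.1 + e j p ⟨n, a.2⟩

lemma v_zero (n : ℕ) : ∀ (a : T n) (m : ℕ) (_ : n ≤ m) (z : Lv m), v j p n a (j ⟨m, z⟩) = 0 := by
  induction n with
  | zero => intro a m _ z; simp [v]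
  | succ n ih =>
    intro a m hm z
    simp only [v]
    rw [lp.coeFn_add, Pi.add_apply, ih a.1 m (by omega) z, e_apply, zero_add, if_neg]
    intro h
    have := congrArg Sigma.fst h
    simp only at this
    omega

lemma sum_v_le (hp : p ≠ ⊤) (n : ℕ) : ∀ (a : T n) (S : Finset Γ),
    ∑ i ∈ S, |v j p n a i| ^ p.toReal ≤ n := by
  have h0 : 0 < p.toReal := ENNReal.toReal_pos (zero_lt_one.trans_le (Fact.out : 1 ≤ p)).ne' hp
  classical
  induction n with
  | zero =>
    intro a S
    simp [v, h0.ne']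
  | succ n ih =>
    intro a S
    have h1 : ∀ i ∈ S, |v j p (n + 1) a i| ^ p.toReal ≤
        |v j p n a.1 i| ^ p.toReal + if i = j ⟨n, a.2⟩ then 1 else 0 := by
      intro i _
      simp only [v]
      rw [lp.coeFn_add, Pi.add_apply]
      by_cases hi : i = j ⟨n, a.2⟩
      · subst hi
        rw [v_zero j p n a.1 n le_rfl, e_apply, if_pos rfl, if_pos rfl, zero_add, abs_one,
          Real.one_rpow, abs_zero, Real.zero_rpow h0.ne', zero_add]
      · rw [e_apply' j p _ i hi, if_neg hi, add_zero, add_zero]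
    refine (Finset.sum_le_sum h1).trans ?_
    rw [Finset.sum_add_distrib, Finset.sum_ite_eq']
    have h2 := ih a.1 S
    push_cast
    split_ifs <;> linarith

lemma norm_v_le (hp : p ≠ ⊤) (n : ℕ) (a : T n) : ‖v j p n a‖ ≤ (n : ℝ) ^ (1 / p.toReal) := by
  have h0 : 0 < p.toReal := ENNReal.toReal_pos (zero_lt_one.trans_le (Fact.out : 1 ≤ p)).ne' hp
  apply norm_le_of_sum hp _ (by positivity)
  intro S
  rw [← Real.rpow_mul (by positivity), one_div_mul_cancel h0.ne', Real.rpow_one]
  exact sum_v_le j p hp n a S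

lemma exists_sum_ge (n : ℕ) : ∀ a b : T n, Dst n a b → ∃ S : Finset Γ,
    (∀ i ∈ S, ∃ m < n, ∃ z : Lv m, i = j ⟨m, z⟩) ∧
      (n : ℝ) ≤ ∑ i ∈ S, |(v j p n a - v j p n b) i| ^ p.toReal := by
  classical
  induction n with
  | zero => intro a b _; exact ⟨∅, by simp, by simp⟩
  | succ n ih =>
    intro a b hab
    obtain ⟨S, hS1, hS2⟩ := ih a.1 b.1 hab.1
    have hnot : j ⟨n, a.2⟩ ∉ S := by
      intro h
      obtain ⟨m, hm, z, hz⟩ := hS1 _ h
      have := congrArg Sigma.fst (j.injective hz)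
      simp only at this
      omega
    refine ⟨insert (j ⟨n, a.2⟩) S, ?_, ?_⟩
    · intro i hi
      rcases Finset.mem_insert.1 hi with rfl | hi
      · exact ⟨n, by omega, a.2, rfl⟩
      · obtain ⟨m, hm, z, hz⟩ := hS1 i hi
        exact ⟨m, by omega, z, hz⟩
    · rw [Finset.sum_insert hnot]
      have h1 : (v j p (n + 1) a - v j p (n + 1) b) (j ⟨n, a.2⟩) = 1 := by
        simp only [v]
        rw [lp.coeFn_sub, Pi.sub_apply, lp.coeFn_add, lp.coeFn_add, Pi.add_apply, Pi.add_apply,
          v_zero j p n a.1 n le_rfl, v_zero j p n b.1 n le_rfl, e_apply, e_apply, if_pos rfl,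
          if_neg, zero_add, zero_add, sub_zero]
        intro h
        exact hab.2 (eq_of_heq (Sigma.mk.inj h).2)
      have h2 : ∑ i ∈ S, |(v j p (n + 1) a - v j p (n + 1) b) i| ^ p.toReal =
          ∑ i ∈ S, |(v j p n a.1 - v j p n b.1) i| ^ p.toReal := by
        refine Finset.sum_congr rfl fun i hi => ?_
        obtain ⟨m, hm, z, hz⟩ := hS1 i hi
        have h3 : ∀ w : Lv n, e j p ⟨n, w⟩ i = 0 := by
          intro w
          rw [hz, e_apply, if_neg]
          intro h
          have := congrArg Sigma.fst h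
          simp only at this
          omega
        simp only [v]
        rw [lp.coeFn_sub, Pi.sub_apply, lp.coeFn_add, lp.coeFn_add, Pi.add_apply, Pi.add_apply,
          h3, h3, add_zero, add_zero, lp.coeFn_sub, Pi.sub_apply]
      rw [h1, h2, abs_one, Real.one_rpow, Nat.cast_succ, add_comm (n : ℝ) 1]
      exact add_le_add le_rfl hS2

lemma norm_sub_ge (hp : p ≠ ⊤) (n : ℕ) (a b : T n) (hab : Dst n a b) :
    (n : ℝ) ≤ ‖v j p n a - v j p n b‖ ^ p.toReal := by
  obtain ⟨S, -, hS⟩ := exists_sum_ge j p n a b hab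
  exact hS.trans (sum_rpow_le_norm hp _ S)

lemma norm_e_sub_le (g h : G) : ‖e j p g - e j p h‖ ≤ 2 := by
  refine (norm_sub_le _ _).trans ?_
  rw [norm_e, norm_e]; norm_num

end Vec

/-! ### colouring -/

section Colour

variable {Γ Δ : Type}

noncomputable def col (ρ : ℝ) (y : Δ → ℝ) (t : Δ) : ℤ :=
  open Classical in if |y t| < ρ then 0 else ⌊y t / ρ⌋

lemma abs_le_of_col {ρ : ℝ} (hρ : 0 < ρ) {y y' : Δ → ℝ}
    (h : col ρ y = col ρ y') (t : Δ) : |y t - y' t| ≤ 2 * ρ := by
  have ht := congrFun h t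
  unfold col at ht
  by_cases h1 : |y t| < ρ
  · by_cases h2 : |y' t| < ρ
    · rw [abs_lt] at h1 h2
      rw [abs_le]; constructor <;> linarith
    · rw [if_pos h1, if_neg h2] at ht
      have h3 := Int.floor_eq_zero_iff.mp ht.symm
      exfalso
      apply h2
      have h4 : 0 ≤ y' t := by
        have := h3.1
        by_contra hcon
        push Not at hcon
        have : y' t / ρ < 0 := div_neg_of_neg_of_pos hcon hρ
        linarith
      rw [abs_of_nonneg h4]
      have := h3.2
      rw [div_lt_one hρ] at this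
      exact this
  · by_cases h2 : |y' t| < ρ
    · rw [if_neg h1, if_pos h2] at ht
      have h3 := Int.floor_eq_zero_iff.mp ht
      exfalso
      apply h1
      have h4 : 0 ≤ y t := by
        have := h3.1
        by_contra hcon
        push Not at hcon
        have : y t / ρ < 0 := div_neg_of_neg_of_pos hcon hρ
        linarith
      rw [abs_of_nonneg h4]
      have := h3.2
      rw [div_lt_one hρ] at this
      exact this
    · rw [if_neg h1, if_neg h2] at ht
      have h3 := Int.abs_sub_lt_one_of_floor_eq_floor ht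
      rw [← sub_div, abs_div, abs_of_pos hρ, div_lt_one hρ] at h3
      linarith

lemma finite_col {ρ : ℝ} (hρ : 0 < ρ) (y0 : Δ → ℝ)
    (hy0 : Filter.Tendsto y0 Filter.cofinite (nhds 0))
    (A : Set (Δ → ℝ)) (hA : ∀ y ∈ A, ∀ t, |y t - y0 t| < ρ / 2) :
    (col ρ '' A).Finite := by
  classical
  have hS : {t | ρ / 2 ≤ |y0 t|}.Finite := by
    have h2 := (tendsto_zero_iff_abs_tendsto_zero _).mp hy0
    have h3 := h2.eventually (Iio_mem_nhds (show 0 < ρ / 2 by positivity))
    rw [Filter.eventually_cofinite] at h3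
    refine h3.subset ?_
    intro t ht
    have ht' : ρ / 2 ≤ |y0 t| := ht
    simpa using ht'
  set S := {t | ρ / 2 ≤ |y0 t|} with hSdef
  have : Finite S := hS
  let ext : (S → ℤ) → (Δ → ℤ) := fun g t => if h : t ∈ S then g ⟨t, h⟩ else 0
  let B : S → Set ℤ := fun t => insert 0 (Set.Icc ⌊(y0 t.1 - ρ / 2) / ρ⌋ ⌊(y0 t.1 + ρ / 2) / ρ⌋)
  have hB : (Set.pi Set.univ B).Finite := Set.Finite.pi (fun t => (Set.finite_Icc _ _).insert 0)
  refine (hB.image ext).subset ?_
  rintro _ ⟨y, hy, rfl⟩
  refine ⟨fun t => col ρ y t.1, ?_, ?_⟩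
  · intro t _
    simp only [B]
    by_cases h1 : |y t.1| < ρ
    · left; unfold col; rw [if_pos h1]
    · right
      unfold col; rw [if_neg h1]
      have h2 := hA y hy t.1
      rw [abs_lt] at h2
      constructor
      · apply Int.floor_le_floor
        apply div_le_div_of_nonneg_right _ hρ.le
        linarith
      · apply Int.floor_le_floor
        apply div_le_div_of_nonneg_right _ hρ.le
        linarith
  · funext t
    simp only [ext]
    by_cases ht : t ∈ S
    · rw [dif_pos ht]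
    · rw [dif_neg ht]
      have h1 : |y0 t| < ρ / 2 := by
        by_contra hcon
        push Not at hcon
        exact ht hcon
      have h2 := hA y hy t
      have h3 : |y t| < ρ := by
        rw [abs_lt] at h1 h2
        rw [abs_lt]
        constructor <;> linarith
      unfold col
      rw [if_pos h3]

lemma FL_col (j : G ↪ Γ) (p : ENNReal) [Fact (1 ≤ p)] (B : Set (lp (fun _ : Γ => ℝ) p))
    {ρ δ c : ℝ} (hρ : 0 < ρ) (hc : 0 ≤ c) (hcδ : c * 2 < δ)
    (f : lp (fun _ : Γ => ℝ) p → lp (fun _ : Δ => ℝ) ⊤)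
    (hf0 : ∀ x, Filter.Tendsto (fun γ : Δ => (f x) γ) Filter.cofinite (nhds 0))
    (hf : ∀ x ∈ B, ∀ y ∈ B, dist x y < δ → dist (f x) (f y) < ρ / 2) (n : ℕ) :
    ∀ w, (∀ a : T n, w + c • v j p n a ∈ B) →
      FL n (fun a : T n => col ρ (f (w + c • v j p n a))) := by
  induction n with
  | zero => intro w _; trivial
  | succ n ih =>
    intro w hw
    have hne : Nonempty (Lv n) := by
      rw [← Cardinal.mk_ne_zero_iff, mk_Lv]
      exact (aleph_pos _).ne'
    obtain ⟨z0⟩ := hne
    have e0 : ∀ (a : T n) (z : Lv n),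
        w + c • e j p ⟨n, z⟩ + c • v j p n a = w + c • v j p (n + 1) (a, z) := by
      intro a z
      simp only [v]; rw [smul_add]; abel
    refine ⟨fun z => ?_, fun a => ?_⟩
    · have := ih (w + c • e j p ⟨n, z⟩) (fun a => by rw [e0]; exact hw (a, z))
      have e1 : (fun a : T n => col ρ (f (w + c • e j p ⟨n, z⟩ + c • v j p n a))) =
          fun a : T n => col ρ (f (w + c • v j p (n + 1) (a, z))) := by
        funext a
        rw [e0]
      rw [e1] at this
      exact this
    · have h1 : Set.range (fun z : Lv n => col ρ (f (w + c • v j p (n + 1) (a, z)))) =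
          col ρ '' (Set.range (fun z : Lv n => (f (w + c • v j p (n + 1) (a, z)) : Δ → ℝ))) := by
        rw [← Set.range_comp]; rfl
      rw [h1]
      apply finite_col hρ (f (w + c • v j p (n + 1) (a, z0))) (hf0 _)
      rintro _ ⟨z, rfl⟩ t
      have h2 : dist (w + c • v j p (n + 1) (a, z)) (w + c • v j p (n + 1) (a, z0)) < δ := by
        rw [dist_eq_norm]
        have e2 : w + c • v j p (n + 1) (a, z) - (w + c • v j p (n + 1) (a, z0)) =
            c • (e j p ⟨n, z⟩ - e j p ⟨n, z0⟩) := by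
          simp only [v]; rw [smul_add, smul_add, smul_sub]; abel
        rw [e2, norm_smul, Real.norm_eq_abs, abs_of_nonneg hc]
        exact lt_of_le_of_lt (mul_le_mul_of_nonneg_left (norm_e_sub_le _ _ _ _) hc) hcδ
      refine lt_of_le_of_lt ?_ (hf _ (hw (a, z)) _ (hw (a, z0)) h2)
      rw [dist_eq_norm]
      exact lp.norm_apply_le_norm ENNReal.top_ne_zero
          (f (w + c • v j p (n + 1) (a, z)) - f (w + c • v j p (n + 1) (a, z0))) t

/-- two points of `B` at distance at least `c n ^ (1/p)` with values at distance at most `2 ρ` -/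
theorem exists_close (j : G ↪ Γ) (p : ENNReal) [Fact (1 ≤ p)] (hp : p ≠ ⊤)
    (B : Set (lp (fun _ : Γ => ℝ) p)) {ρ δ c : ℝ} (hρ : 0 < ρ) (hc : 0 ≤ c) (hcδ : c * 2 < δ)
    (f : lp (fun _ : Γ => ℝ) p → lp (fun _ : Δ => ℝ) ⊤)
    (hf0 : ∀ x, Filter.Tendsto (fun γ : Δ => (f x) γ) Filter.cofinite (nhds 0))
    (hf : ∀ x ∈ B, ∀ y ∈ B, dist x y < δ → dist (f x) (f y) < ρ / 2) (n : ℕ)
    (hB : ∀ a : T n, c • v j p n a ∈ B) :
    ∃ x ∈ B, ∃ y ∈ B, dist (f x) (f y) ≤ 2 * ρ ∧ c * (n : ℝ) ^ (1 / p.toReal) ≤ dist x y := by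
  have h0 : 0 < p.toReal := ENNReal.toReal_pos (zero_lt_one.trans_le (Fact.out : 1 ≤ p)).ne' hp
  have hFL := FL_col j p B hρ hc hcδ f hf0 hf n 0 (fun a => by rw [zero_add]; exact hB a)
  obtain ⟨a, b, hab, h⟩ := comb n _ hFL
  rw [zero_add, zero_add] at h
  refine ⟨c • v j p n a, hB a, c • v j p n b, hB b, ?_, ?_⟩
  · rw [dist_eq_norm]
    apply lp.norm_le_of_forall_le (by positivity)
    intro t
    exact abs_le_of_col hρ h t
  · rw [dist_eq_norm, ← smul_sub, norm_smul, Real.norm_eq_abs, abs_of_nonneg hc]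
    apply mul_le_mul_of_nonneg_left _ hc
    have h1 := norm_sub_ge j p hp n a b hab
    calc (n : ℝ) ^ (1 / p.toReal) ≤ (‖v j p n a - v j p n b‖ ^ p.toReal) ^ (1 / p.toReal) :=
          Real.rpow_le_rpow (by positivity) h1 (by positivity)
      _ = ‖v j p n a - v j p n b‖ := by
          rw [← Real.rpow_mul (norm_nonneg _), mul_one_div_cancel h0.ne', Real.rpow_one]

end Colour

end Pool.Agent.Y323.LP
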