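import Pool.Agent.Y323.LP.Good
import Pool.Agent.Y323.LP.Embed

/-!
# The bi-Lipschitz embedding of `ℓ_p(Γ)` into `c₀(Γ)` below `ℵ_ω`
-/

set_option autoImplicit false
open Cardinal

namespace Pool.Agent.Y323.LP

/-- the colouring attached to a choice of coordinates -/
noncomputable def colr {Γ : Type} (p ε : ℝ) (R : (Γ → ℝ) → Finset Γ) (x : Γ → ℝ) :
    Finset Γ × (Γ →₀ ℤ) :=
  open Classical in
  (R x, Finsupp.onFinset (R x)
    (fun ξ => if ξ ∈ R x then ⌊x ξ / (ε / ((R x).card + 1)) ^ (1 / p)⌋ else 0)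
    (fun ξ h => by
      by_contra hcon
      rw [if_neg hcon] at h
      exact h rfl))

lemma colr_eq {Γ : Type} {p ε : ℝ} (hp : 0 < p) (hε : 0 < ε) (R : (Γ → ℝ) → Finset Γ)
    (x y : Γ → ℝ) (h : colr p ε R x = colr p ε R y) (hx : Le p x (Set.univ \ ↑(R x)) ε)
    (hy : Le p y (Set.univ \ ↑(R y)) ε) (S : Finset Γ) :
    ∑ ξ ∈ S, |(x - y) ξ| ^ p ≤ (1 + 2 * 2 ^ p) * ε := by
  classical
  have h1 : R x = R y := congrArg Prod.fst h
  have h2 := congrArg Prod.snd h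
  set r := (ε / ((R x).card + 1)) ^ (1 / p) with hr
  have hcard : (0 : ℝ) < (R x).card + 1 := by positivity
  have hr2 : r ^ p = ε / ((R x).card + 1) := by
    rw [hr, ← Real.rpow_mul (by positivity), one_div_mul_cancel hp.ne', Real.rpow_one]
  have hrpos : 0 < r := by positivity
  rw [← Finset.sum_filter_add_sum_filter_not S (· ∈ R x)]
  have h3 : ∀ ξ ∈ R x, |(x - y) ξ| ^ p ≤ r ^ p := by
    intro ξ hξ
    have h4 := DFunLike.congr_fun h2 ξ
    have hξ' : ξ ∈ R y := h1 ▸ hξ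
    simp only [colr, Finsupp.onFinset_apply, if_pos hξ, if_pos hξ'] at h4
    rw [← h1, ← hr] at h4
    have h5 := Int.abs_sub_lt_one_of_floor_eq_floor h4
    rw [← sub_div, abs_div, abs_of_pos hrpos, div_lt_one hrpos] at h5
    rw [Pi.sub_apply]
    exact Real.rpow_le_rpow (abs_nonneg _) h5.le hp.le
  have h6 : ∑ ξ ∈ S with ξ ∈ R x, |(x - y) ξ| ^ p ≤ ε := by
    calc ∑ ξ ∈ S with ξ ∈ R x, |(x - y) ξ| ^ p ≤ ∑ ξ ∈ R x, |(x - y) ξ| ^ p := by
          apply Finset.sum_le_sum_of_subset_of_nonneg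
          · intro ξ hξ; exact (Finset.mem_filter.1 hξ).2
          · intro _ _ _; positivity
      _ ≤ ∑ ξ ∈ R x, r ^ p := Finset.sum_le_sum h3
      _ = (R x).card * (ε / ((R x).card + 1)) := by rw [Finset.sum_const, nsmul_eq_mul, hr2]
      _ ≤ ε := by
          rw [mul_div_assoc', div_le_iff₀ hcard]
          nlinarith
  have h7 : ∑ ξ ∈ S with ¬ ξ ∈ R x, |(x - y) ξ| ^ p ≤ 2 * 2 ^ p * ε := by
    have h8 := hx (S.filter (fun ξ => ¬ ξ ∈ R x)) (by
      intro ξ hξ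
      exact ⟨Set.mem_univ _, (Finset.mem_filter.1 hξ).2⟩)
    have h9 := hy (S.filter (fun ξ => ¬ ξ ∈ R x)) (by
      intro ξ hξ
      refine ⟨Set.mem_univ _, ?_⟩
      rw [← h1]
      exact (Finset.mem_filter.1 hξ).2)
    have h10 : ∑ ξ ∈ S with ¬ ξ ∈ R x, |(x - y) ξ| ^ p ≤
        ∑ ξ ∈ S with ¬ ξ ∈ R x, (2 ^ p * |x ξ| ^ p + 2 ^ p * |y ξ| ^ p) := by
      apply Finset.sum_le_sum
      intro ξ _
      rw [Pi.sub_apply, ← mul_add]
      have h11 := rpow_abs_le hp.le (x ξ - y ξ) (x ξ)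
      have h12 : |x ξ - y ξ - x ξ| = |y ξ| := by
        rw [show x ξ - y ξ - x ξ = -y ξ by ring, abs_neg]
      rwa [h12] at h11
    rw [Finset.sum_add_distrib, ← Finset.mul_sum, ← Finset.mul_sum] at h10
    have h13 : (0 : ℝ) ≤ 2 ^ p := by positivity
    nlinarith [mul_le_mul_of_nonneg_left h8 h13, mul_le_mul_of_nonneg_left h9 h13]
  linarith

lemma colr_finite {Γ : Type} {p ε : ℝ} (hp : 0 < p) (hε : 0 < ε) (R : (Γ → ℝ) → Finset Γ) (B : ℝ)
    (U : Finset Γ) (A : Set (Γ → ℝ)) (hA : ∀ x ∈ A, R x ⊆ U ∧ ∀ ξ, |x ξ| ≤ B) :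
    (colr p ε R '' A).Finite := by
  classical
  set r0 := (ε / (U.card + 1)) ^ (1 / p) with hr0
  have hr0pos : 0 < r0 := by positivity
  set M : ℤ := ⌈B / r0⌉ + 1 with hM
  refine (Finset.finite_toSet (U.powerset ×ˢ Finset.finsupp U (fun _ => Finset.Icc (-M) M))).subset ?_
  rintro _ ⟨x, hx, rfl⟩
  obtain ⟨hRU, hB⟩ := hA x hx
  rw [Finset.mem_coe, Finset.mem_product, Finset.mem_powerset, Finset.mem_finsupp_iff]
  refine ⟨hRU, ?_, ?_⟩
  · intro ξ hξ
    apply hRU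
    have h1 : (colr p ε R x).2 ξ ≠ 0 := Finsupp.mem_support_iff.1 hξ
    by_contra hcon
    apply h1
    simp only [colr, Finsupp.onFinset_apply]
    rw [if_neg hcon]
  · intro ξ hξ
    simp only [colr, Finsupp.onFinset_apply]
    have hB0 : 0 ≤ B := (abs_nonneg _).trans (hB ξ)
    have hM0 : 0 ≤ M := by
      have : (0 : ℤ) ≤ ⌈B / r0⌉ := Int.ceil_nonneg (by positivity)
      omega
    split_ifs with h
    · set r := (ε / ((R x).card + 1)) ^ (1 / p) with hr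
      have hle : r0 ≤ r := by
        apply Real.rpow_le_rpow (by positivity) _ (by positivity)
        have : ((R x).card : ℝ) ≤ U.card := by exact_mod_cast Finset.card_le_card hRU
        gcongr
      have hrpos : 0 < r := hr0pos.trans_le hle
      have h1 : |x ξ / r| ≤ B / r0 := by
        rw [abs_div, abs_of_pos hrpos]
        exact div_le_div₀ hB0 (hB ξ) hr0pos hle
      have h2 : (⌈B / r0⌉ : ℝ) ≥ B / r0 := Int.le_ceil _
      rw [Finset.mem_Icc]
      constructor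
      · rw [Int.le_floor]
        push_cast [hM]
        have := (abs_le.1 h1).1
        linarith
      · apply Int.floor_le_iff.2
        push_cast [hM]
        have := (abs_le.1 h1).2
        linarith
    · rw [Finset.mem_Icc]
      constructor <;> omega

lemma sum_rpow_le_norm {Γ : Type} {p : ENNReal} [Fact (1 ≤ p)] (hp : p ≠ ⊤)
    (x : lp (fun _ : Γ => ℝ) p) (S : Finset Γ) :
    ∑ ξ ∈ S, |x ξ| ^ p.toReal ≤ ‖x‖ ^ p.toReal := by
  have h0 : 0 < p.toReal := ENNReal.toReal_pos (zero_lt_one.trans_le (Fact.out : 1 ≤ p)).ne' hp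
  exact lp.sum_rpow_le_norm_rpow h0 x S

lemma norm_le_of_sum {Γ : Type} {p : ENNReal} [Fact (1 ≤ p)] (hp : p ≠ ⊤)
    (x : lp (fun _ : Γ => ℝ) p) {C : ℝ} (hC : 0 ≤ C)
    (h : ∀ S : Finset Γ, ∑ ξ ∈ S, |x ξ| ^ p.toReal ≤ C ^ p.toReal) : ‖x‖ ≤ C := by
  have h0 : 0 < p.toReal := ENNReal.toReal_pos (zero_lt_one.trans_le (Fact.out : 1 ≤ p)).ne' hp
  exact lp.norm_le_of_forall_sum_le h0 hC h

lemma sq_lp {Γ : Type} {p : ENNReal} [Fact (1 ≤ p)] (hp : p ≠ ⊤) (x : lp (fun _ : Γ => ℝ) p) :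
    SQ p.toReal (x : Γ → ℝ) := by
  intro η hη
  have h0 : 0 < p.toReal := ENNReal.toReal_pos (zero_lt_one.trans_le (Fact.out : 1 ≤ p)).ne' hp
  have h1 : Summable (fun i => ‖x i‖ ^ p.toReal) := (lp.memℓp x).summable h0
  obtain ⟨s, hs⟩ := summable_iff_vanishing_norm.1 h1 η hη
  refine ⟨s, fun S hS => ?_⟩
  have hd : Disjoint S s := by
    rw [Finset.disjoint_left]
    intro a ha hb
    exact hS ha hb
  have h3 := hs S hd
  exact (le_abs_self _).trans h3.le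

theorem pos_embedding {Γ : Type} [Infinite Γ] {p : ENNReal} [Fact (1 ≤ p)] (hp : p ≠ ⊤) (n : ℕ)
    (hn : #Γ ≤ aleph n) :
    ∃ F : lp (fun _ : Γ => ℝ) p → lp (fun _ : Γ => ℝ) ⊤,
      (∀ x, Filter.Tendsto (fun γ : Γ => (F x) γ) Filter.cofinite (nhds 0)) ∧
      ∃ K L : NNReal, LipschitzWith K F ∧ AntilipschitzWith L F := by
  classical
  have hp0 : p ≠ 0 := (zero_lt_one.trans_le (Fact.out : 1 ≤ p)).ne'
  have hq : 0 < p.toReal := ENNReal.toReal_pos hp0 hp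
  set q := p.toReal with hqdef
  obtain ⟨ε, hε, hε2⟩ : ∃ ε : ℝ, 0 < ε ∧ (1 + 2 * 2 ^ q) * ε = (1 / 2) ^ q := by
    refine ⟨(1 / 2) ^ q / (1 + 2 * 2 ^ q), by positivity, ?_⟩
    field_simp
  obtain ⟨δ₀, hδ₀, hgood⟩ := good_aleph hq.le n ε hε
  obtain ⟨R, hR1, hR2⟩ := hgood Γ Set.univ (by rwa [Cardinal.mk_univ])
  set δ := min (1 / 8) (δ₀ ^ (1 / q)) with hδdef
  have hδ : 0 < δ := lt_min (by norm_num) (by positivity)
  have hδ8 : δ ≤ 1 / 8 := min_le_left _ _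
  have hδs : δ ≤ δ₀ ^ (1 / q) := min_le_right _ _
  let c : lp (fun _ : Γ => ℝ) p → Finset Γ × (Γ →₀ ℤ) := fun x => colr q ε R x
  have hdiam : ∀ x x', c x = c x' → dist x x' ≤ 1 / 2 := by
    intro x x' h
    rw [dist_eq_norm]
    apply norm_le_of_sum hp _ (by norm_num)
    intro S
    have := colr_eq hq hε R x x' h (hR1 x (sq_lp hp x)) (hR1 x' (sq_lp hp x')) S
    rw [hε2] at this
    exact this
  have hfin : ∀ y, (c '' {x | dist x y < δ}).Finite := by
    intro y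
    obtain ⟨U, hU⟩ := hR2 y (sq_lp hp y)
    have h1 := colr_finite hq hε R (‖y‖ + δ) U
      ((fun x : lp (fun _ : Γ => ℝ) p => (x : Γ → ℝ)) '' {x | dist x y < δ}) (by
        rintro _ ⟨x, hx, rfl⟩
        rw [Set.mem_ofPred_eq, dist_eq_norm] at hx
        constructor
        · apply hU x (sq_lp hp x)
          intro S _
          have h2 := sum_rpow_le_norm hp (x - y) S
          have h3 : ‖x - y‖ ^ q ≤ δ₀ := by
            have h4 : ‖x - y‖ ≤ δ₀ ^ (1 / q) := hx.le.trans hδs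
            calc ‖x - y‖ ^ q ≤ (δ₀ ^ (1 / q)) ^ q :=
                  Real.rpow_le_rpow (norm_nonneg _) h4 hq.le
              _ = δ₀ := by
                  rw [← Real.rpow_mul hδ₀.le, one_div_mul_cancel hq.ne', Real.rpow_one]
          exact h2.trans h3
        · intro ξ
          have h2 := lp.norm_apply_le_norm hp0 x ξ
          rw [Real.norm_eq_abs] at h2
          have h3 : ‖x‖ ≤ ‖y‖ + ‖x - y‖ := norm_le_norm_add_norm_sub' x y
          linarith)
    rw [Set.image_image] at h1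
    exact h1
  have hcard : #(ℤ × (Finset Γ × (Γ →₀ ℤ))) ≤ #Γ := by
    have h0 : ℵ₀ ≤ #Γ := Cardinal.aleph0_le_mk Γ
    have h1 : #(Finset Γ) = #Γ := Cardinal.mk_finset_of_infinite Γ
    have h2 : #(Γ →₀ ℤ) = #Γ := by
      rw [Cardinal.mk_finsupp_of_infinite, Cardinal.mk_int, max_eq_left h0]
    rw [Cardinal.mk_prod, Cardinal.mk_prod, Cardinal.lift_id, Cardinal.lift_id, Cardinal.lift_id,
      Cardinal.lift_id, h1, h2, Cardinal.mk_int, Cardinal.mul_eq_self h0,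
      Cardinal.aleph0_mul_eq h0]
  obtain ⟨ι⟩ := hcard
  exact embed_of_colouring c hδ hδ8 hdiam hfin ι ι.injective

end Pool.Agent.Y323.LP
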